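import Pool.Agent.IsoHnn.ClsC
import Pool.Agent.IsoHnn.MainH

/-!
# Isolated left orders on groups with tame windows

A left order on a group `G` is given by its positive cone `P` (`IsLeftCone P`). It is isolated if a
finite set of elements determines it among all left orders (`IsIsolated P`). These are the
conventions of the problem file.

`HyperNFS G`: every nontrivial quotient `G/L` has a nontrivial normal subgroup `N/L` any two
elements of which satisfy a semigroup relation. This holds for all groups with an ascending normal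
series whose factors have locally subexponential growth, for example for solvable groups.

`window c w w'` is the subgroup generated by `c ^ n w c ^ -n` and `c ^ n w' c ^ -n`, `n ≥ 0`.

`Tame` is the smallest class of groups which contains the hyper-NFS groups and their ascending HNN
extensions and is closed under subgroups, extensions of hyper-NFS groups by tame groups, the
passage from the subgroups with three generators to the whole group, and the following rule: `G` is
tame if every nontrivial quotient `G/L` has a nontrivial normal subgroup `N` such that for all `c`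
in `G/L` and `w, w'` in `N` the window of `c` or the window of `c⁻¹` is hyper-NFS, or the group
generated by `c, w, w'` is tame.

Theorem. If `G` is tame and `G` has infinitely many left orders, then no left order is isolated.
-/

set_option autoImplicit false

universe u

namespace Pool.Agent.Results.MP_7d9748_al.TameWindows

/-- `P` is the positive cone of a left order on `G` -/
def IsLeftCone {G : Type u} [Group G] (P : Set G) : Prop :=
  (∀ a ∈ P, ∀ b ∈ P, a * b ∈ P) ∧ (1 : G) ∉ P ∧
    (∀ a : G, a ≠ 1 → (a ∈ P ∨ a⁻¹ ∈ P)) ∧ (∀ a ∈ P, a⁻¹ ∉ P)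

/-- `P` is an isolated point of the space of left orders: a finite set `S` of elements determines
it among all left orders -/
def IsIsolated {G : Type u} [Group G] (P : Set G) : Prop :=
  IsLeftCone P ∧ ∃ S : Finset G, ∀ Q : Set G, IsLeftCone Q → (∀ g ∈ S, (g ∈ Q ↔ g ∈ P)) → Q = P

/-- the value in `G` of a word in the two letters `a` (`true`) and `b` (`false`) -/
def wordValue {G : Type u} [Group G] (a b : G) (w : List Bool) : G :=
  (w.map (fun i => if i = true then a else b)).prod

/-- every proper normal subgroup `L` is properly contained in a normal subgroup `N` any two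
elements of which satisfy a semigroup relation modulo `L` -/
def HyperNFS (G : Type u) [Group G] : Prop :=
  ∀ L : Subgroup G, L.Normal → L ≠ ⊤ → ∃ N : Subgroup G, N.Normal ∧ L < N ∧
    ∀ a ∈ N, ∀ b ∈ N, ∃ w₁ w₂ : List Bool, w₁ ≠ w₂ ∧
      (wordValue a b w₁)⁻¹ * wordValue a b w₂ ∈ L

/-- the subgroup generated by the elements `c ^ n w c ^ -n` and `c ^ n w' c ^ -n`, `n ≥ 0` -/
def window {G : Type u} [Group G] (c w w' : G) : Subgroup G :=
  Subgroup.closure {g | ∃ n : ℕ, g = c ^ n * w * (c ^ n)⁻¹ ∨ g = c ^ n * w' * (c ^ n)⁻¹}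

/-- the class of groups -/
inductive Tame : (G : Type u) → [Group G] → Prop
  /-- hyper-NFS groups -/
  | hyper (G : Type u) [Group G] (h : HyperNFS G) : Tame G
  /-- ascending HNN extensions of hyper-NFS groups -/
  | hnn (G : Type u) [Group G] (M : Subgroup G) (c : G) (hM : HyperNFS M)
      (hc : ∀ m ∈ M, c * m * c⁻¹ ∈ M)
      (hgen : Subgroup.closure (insert c (M : Set G)) = ⊤) : Tame G
  /-- subgroups -/
  | emb (G H : Type u) [Group G] [Group H] (f : H →* G) (hf : Function.Injective f)
      (h : Tame G) : Tame H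
  /-- extensions of hyper-NFS groups by tame groups -/
  | ext (G : Type u) [Group G] (N : Subgroup G) [N.Normal] (hN : HyperNFS N)
      (h : Tame (G ⧸ N)) : Tame G
  /-- groups all of whose subgroups with three generators are tame -/
  | loc (G : Type u) [Group G] (h : ∀ c w w' : G, Tame (Subgroup.closure {c, w, w'})) : Tame G
  /-- the general rule -/
  | win (G : Type u) [Group G] (N : ∀ (L : Subgroup G) [L.Normal], Subgroup (G ⧸ L))
      (hN : ∀ (L : Subgroup G) [L.Normal], L ≠ ⊤ → (N L).Normal ∧ N L ≠ ⊥)
      (hw : ∀ (L : Subgroup G) [L.Normal], L ≠ ⊤ → ∀ c : G ⧸ L, ∀ w ∈ N L, ∀ w' ∈ N L,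
        ¬ HyperNFS (window c w w') → ¬ HyperNFS (window c⁻¹ w' w) →
        Tame (Subgroup.closure {c, w, w'})) : Tame G

theorem cone_iff {G : Type u} [Group G] (P : Set G) :
    IsLeftCone P ↔ IsoOrd.Cone (⊤ : Subgroup G) P := by
  constructor
  · rintro ⟨h1, h2, h3, _⟩
    exact ⟨fun x _ => Subgroup.mem_top x, h1, h2, fun x _ => h3 x⟩
  · rintro ⟨_, h1, h2, h3⟩
    refine ⟨h1, h2, fun a ha => h3 a (Subgroup.mem_top a) ha, ?_⟩
    intro a ha ha'
    apply h2
    have := h1 a ha a⁻¹ ha'
    rwa [mul_inv_cancel] at this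

theorem wordValue_eq {G : Type u} [Group G] (a b : G) (w : List Bool) :
    wordValue a b w = IsoOrd.ev a b w := by
  unfold wordValue IsoOrd.ev
  congr 1
  apply List.map_congr_left
  intro i _
  cases i <;> rfl

theorem hyper_iff (G : Type u) [Group G] : HyperNFS G ↔ IsoOrd.HNFS G := by
  unfold HyperNFS IsoOrd.HNFS IsoOrd.RelNFS
  simp only [wordValue_eq]

theorem HyperNFS.rel {G : Type u} [Group G] (h : HyperNFS G) (K : Subgroup G) :
    IsoHnn.HNrel G K :=
  fun L hL _ hne => (hyper_iff G).1 h L hL hne

theorem window_eq {G : Type u} [Group G] (c w w' : G) : window c w w' = IsoHnn.win c w w' := rfl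

/-- tame groups are good in the sense of the dynamical theorem -/
theorem Tame.good {G : Type u} [Group G] (h : Tame G) : IsoHnn.Good (⊤ : Subgroup G) ⊥ := by
  classical
  induction h with
  | hyper G h => exact IsoHnn.Good.of_hnfs (h.rel ⊥)
  | hnn G M c hM hc hgen => exact IsoHnn.Good.hnn ((hyper_iff M).1 hM) hc hgen
  | emb G H f hf h ih =>
    refine IsoHnn.Good.of_map f hf ?_
    rw [Subgroup.map_bot]
    refine ih.sub (fun g _ k hk => ?_) le_top
    rw [Subgroup.mem_bot] at hk ⊢
    rw [hk]
    group
  | ext G N hN h ih => exact IsoHnn.Good.ext' (hN.rel ⊥) ih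
  | loc G h ih => exact IsoHnn.Good.of_local' ih
  | win G N hN hw ih =>
    refine IsoHnn.Good.intro ⊤ ⊥
      (fun L => if h : L.Normal then (N L).comap (QuotientGroup.mk' L) else ⊥) ?_ ?_
    · intro L h1 _ h3
      have hL : L.Normal := ⟨fun n hn g => h1.conj g (Subgroup.mem_top g) n hn⟩
      obtain ⟨h4, h5⟩ := hN L h3
      rw [dif_pos hL]
      have h6 : ((N L).comap (QuotientGroup.mk' L)).Normal := h4.comap _
      refine ⟨⟨le_top, fun g _ n hn => h6.conj_mem n hn g⟩, fun hle => h5 ?_⟩
      rw [eq_bot_iff]
      intro x hx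
      obtain ⟨g, rfl⟩ := QuotientGroup.mk'_surjective L x
      have h7 : g ∈ L := hle hx
      rw [Subgroup.mem_bot, QuotientGroup.mk'_apply, QuotientGroup.eq_one_iff]
      exact h7
    · intro L h1 _ h3 c _ w hw1 w' hw2 hn1 hn2
      have hL : L.Normal := ⟨fun n hn g => h1.conj g (Subgroup.mem_top g) n hn⟩
      rw [dif_pos hL] at hw1 hw2
      have hker : (⊤ : Subgroup G) ⊓ (QuotientGroup.mk' L).ker ≤ L := by
        rw [QuotientGroup.ker_mk']
        exact inf_le_right
      have h4 := ih L h3 (QuotientGroup.mk' L c) (QuotientGroup.mk' L w) hw1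
        (QuotientGroup.mk' L w') hw2
        (fun hh => hn1 (IsoHnn.win_comap (QuotientGroup.mk' L) h1 hker (Subgroup.mem_top c)
          (Subgroup.mem_top w) (Subgroup.mem_top w') (HyperNFS.rel hh _)))
        (fun hh => hn2 (IsoHnn.win_comap (QuotientGroup.mk' L) h1 hker (Subgroup.mem_top c⁻¹)
          (Subgroup.mem_top w') (Subgroup.mem_top w) (by
            rw [map_inv]
            exact HyperNFS.rel hh _)))
      refine h4.ofType.comap' (QuotientGroup.mk' L) (Subgroup.closure {c, w, w'}) L
        (IsoHnn.map_closure3 _ c w w') ((inf_le_inf_right _ le_top).trans hker) ?_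
      exact inf_le_right.trans bot_le

theorem good_finite {G : Type u} [Group G] (hG : IsoHnn.Good (⊤ : Subgroup G) ⊥) (P : Set G)
    (hP : IsIsolated P) : {Q : Set G | IsLeftCone Q}.Finite := by
  obtain ⟨hPc, S, hS⟩ := hP
  have hPc' := (cone_iff P).1 hPc
  classical
  let F : Set G := {g | g ∈ P ∧ (g ∈ S ∨ g⁻¹ ∈ S)}
  have hF : F.Finite := by
    apply Set.Finite.subset ((S.finite_toSet).union ((S.image (fun g => g⁻¹)).finite_toSet))
    rintro g ⟨_, h1 | h1⟩
    · exact Or.inl h1
    · right
      rw [Finset.mem_coe, Finset.mem_image]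
      exact ⟨g⁻¹, h1, inv_inv g⟩
  have hiso : IsoOrd.Isol (⊤ : Subgroup G) P F := by
    refine ⟨hPc', hF, fun g hg => hg.1, ?_⟩
    intro Q hQ hFQ
    have hQc := (cone_iff Q).2 hQ
    apply hS Q hQc
    intro g hg
    constructor
    · intro hgQ
      by_contra hgP
      have hg1 : g ≠ 1 := by
        rintro rfl
        exact hQc.2.1 hgQ
      rcases hPc.2.2.1 g hg1 with h1 | h1
      · exact hgP h1
      · have h2 : g⁻¹ ∈ F := ⟨h1, Or.inr (by rwa [inv_inv])⟩
        exact hQc.2.2.2 g hgQ (hFQ h2)
    · intro hgP
      exact hFQ ⟨hgP, Or.inl hg⟩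
  have := IsoHnn.good_finite hG hiso
  apply this.subset
  intro Q hQ
  exact (cone_iff Q).1 hQ

/-- Main theorem -/
theorem result {G : Type u} [Group G] (hG : Tame G) (hinf : {Q : Set G | IsLeftCone Q}.Infinite)
    (P : Set G) : ¬ IsIsolated P :=
  fun hP => hinf (good_finite hG.good P hP)

end Pool.Agent.Results.MP_7d9748_al.TameWindows
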